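import Mathlib

/-!
The permanent inequality `∑ |a_{1k}|² per(B_kk) ≤ per A` fails for a complex positive semidefinite
matrix of order 14 and rank 2.
-/

set_option autoImplicit false

namespace Pool.Agent.Results.MP_395ab6_co.Order14

open Polynomial Finset
open scoped ComplexOrder

/-! ### counting permutations by the image of a fixed set -/

theorem sum_perm_image {ι R : Type} [Fintype ι] [DecidableEq ι] [CommRing R] (B : Finset ι)
    (H : Finset ι → R) :
    ∑ σ : Equiv.Perm ι, H (B.map σ.toEmbedding) =
      ((B.card.factorial * (Fintype.card ι - B.card).factorial : ℕ) : R) *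
        ∑ S ∈ powersetCard B.card (univ : Finset ι), H S := by
  classical
  set PC := powersetCard B.card (univ : Finset ι) with hPC
  have hmaps : ∀ σ ∈ (univ : Finset (Equiv.Perm ι)), B.map σ.toEmbedding ∈ PC := by
    intro σ _
    rw [hPC, mem_powersetCard]
    exact ⟨subset_univ _, card_map _⟩
  have hfib : ∀ S ∈ PC,
      (univ.filter (fun σ : Equiv.Perm ι => B.map σ.toEmbedding = S)).card =
      (univ.filter (fun σ : Equiv.Perm ι => B.map σ.toEmbedding = B)).card := by
    intro S hS
    rw [hPC, mem_powersetCard] at hS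
    have hcard : Fintype.card {x // x ∈ B} = Fintype.card {x // x ∈ S} := by
      simp [hS.2]
    let e : {x // x ∈ B} ≃ {x // x ∈ S} := Fintype.equivOfCardEq hcard
    let τ : Equiv.Perm ι := e.extendSubtype
    have hτ : B.map τ.toEmbedding = S := by
      apply Finset.eq_of_subset_of_card_le
      · intro y hy
        obtain ⟨x, hx, rfl⟩ := Finset.mem_map.1 hy
        exact e.extendSubtype_mem x hx
      · rw [card_map, hS.2]
    refine Finset.card_bij' (fun σ _ => τ⁻¹ * σ) (fun σ _ => τ * σ) ?_ ?_ ?_ ?_
    · intro σ hσ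
      rw [mem_filter] at hσ ⊢
      refine ⟨mem_univ _, ?_⟩
      ext x
      simp only [Finset.mem_map, Equiv.coe_toEmbedding, Equiv.Perm.mul_apply]
      constructor
      · rintro ⟨y, hy, rfl⟩
        have h1 : σ y ∈ S := by
          rw [← hσ.2]; exact Finset.mem_map_of_mem _ hy
        rw [← hτ] at h1
        obtain ⟨z, hz, hz2⟩ := Finset.mem_map.1 h1
        rw [← hz2]
        simpa using hz
      · intro hx
        have h1 : τ x ∈ S := by rw [← hτ]; exact Finset.mem_map_of_mem _ hx
        rw [← hσ.2] at h1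
        obtain ⟨z, hz, hz2⟩ := Finset.mem_map.1 h1
        refine ⟨z, hz, ?_⟩
        have hz3 : σ z = τ x := hz2
        rw [hz3]; simp
    · intro σ hσ
      rw [mem_filter] at hσ ⊢
      refine ⟨mem_univ _, ?_⟩
      have : B.map (τ * σ).toEmbedding = (B.map σ.toEmbedding).map τ.toEmbedding := by
        rw [Finset.map_map]; rfl
      rw [this, hσ.2, hτ]
    · intro σ _; simp
    · intro σ _; simp
  set N := (univ.filter (fun σ : Equiv.Perm ι => B.map σ.toEmbedding = B)).card with hN
  have h1 : (Fintype.card ι).factorial = (univ : Finset (Equiv.Perm ι)).card := by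
    rw [card_univ, Fintype.card_perm]
  rw [Finset.card_eq_sum_card_fiberwise hmaps, Finset.sum_congr rfl hfib, sum_const,
      smul_eq_mul, hPC, card_powersetCard, card_univ] at h1
  have hle : B.card ≤ Fintype.card ι := Finset.card_le_univ B
  have hNval : N = B.card.factorial * (Fintype.card ι - B.card).factorial := by
    have h2 := Nat.choose_mul_factorial_mul_factorial hle
    have hpos : 0 < (Fintype.card ι).choose B.card := Nat.choose_pos hle
    rw [← h2, mul_assoc] at h1
    exact (Nat.eq_of_mul_eq_mul_left hpos h1).symm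
  rw [← hNval]
  rw [← Finset.sum_fiberwise_of_maps_to hmaps, Finset.mul_sum]
  apply Finset.sum_congr rfl
  intro S hS
  rw [← hfib S hS, Finset.sum_congr rfl (g := fun _ => H S)
      (by intro σ hσ; rw [(mem_filter.1 hσ).2]), sum_const, nsmul_eq_mul]

/-- The product of linear forms. -/
noncomputable def lp {ι R : Type} [Fintype ι] [CommRing R] (a b : ι → R) : R[X] :=
  ∏ i, (C (a i) * X + C (b i))

theorem lp_coeff {ι R : Type} [Fintype ι] [DecidableEq ι] [CommRing R] (a b : ι → R) (k : ℕ) :
    (lp a b).coeff k = ∑ S ∈ powersetCard k (univ : Finset ι), (∏ i ∈ S, a i) * ∏ i ∈ Sᶜ, b i := by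
  unfold lp
  rw [Finset.prod_add, finsetSum_coeff]
  have h1 : ∀ S : Finset ι, ((∏ i ∈ S, C (a i) * X) * ∏ i ∈ univ \ S, C (b i)).coeff k =
      if S.card = k then (∏ i ∈ S, a i) * ∏ i ∈ Sᶜ, b i else 0 := by
    intro S
    have : (∏ i ∈ S, C (a i) * X) * ∏ i ∈ univ \ S, C (b i) =
        C ((∏ i ∈ S, a i) * ∏ i ∈ Sᶜ, b i) * X ^ S.card := by
      rw [Finset.prod_mul_distrib, Finset.prod_const, ← Finset.compl_eq_univ_sdiff]
      simp only [map_mul, map_prod]
      ring
    rw [this, coeff_C_mul_X_pow]
    by_cases h : S.card = k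
    · rw [if_pos h, if_pos h.symm]
    · rw [if_neg h, if_neg (fun h' => h h'.symm)]
  simp only [h1]
  rw [← Finset.sum_filter]
  apply Finset.sum_congr _ (fun _ _ => rfl)
  ext S
  simp [mem_powersetCard]

/-- The permanent of a matrix of rank two. -/
theorem perm_rank2 {ι R : Type} [Fintype ι] [DecidableEq ι] [CommRing R] (a b c d : ι → R) :
    (Matrix.of fun i j => a i * c j + b i * d j).permanent =
      ∑ k ∈ range (Fintype.card ι + 1),
        ((k.factorial * (Fintype.card ι - k).factorial : ℕ) : R) *
          ((lp a b).coeff k * (lp c d).coeff k) := by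
  unfold Matrix.permanent
  simp only [Matrix.of_apply]
  have h1 : ∀ σ : Equiv.Perm ι, ∏ i, (a (σ i) * c i + b (σ i) * d i) =
      ∑ T : Finset ι, ((∏ i ∈ T, c i) * ∏ i ∈ Tᶜ, d i) *
        ((∏ i ∈ T.map σ.toEmbedding, a i) * ∏ i ∈ (T.map σ.toEmbedding)ᶜ, b i) := by
    intro σ
    rw [Finset.prod_add, Finset.powerset_univ]
    apply Finset.sum_congr rfl
    intro T _
    have h2 : (T.map σ.toEmbedding)ᶜ = (Tᶜ).map σ.toEmbedding := by
      ext x
      simp only [Finset.mem_compl, Finset.mem_map_equiv]
    rw [h2, Finset.prod_map, Finset.prod_map, ← Finset.compl_eq_univ_sdiff,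
      Finset.prod_mul_distrib, Finset.prod_mul_distrib]
    simp only [Equiv.coe_toEmbedding]
    ring
  simp only [h1]
  rw [Finset.sum_comm]
  have h2 : ∀ T : Finset ι, ∑ σ : Equiv.Perm ι, ((∏ i ∈ T, c i) * ∏ i ∈ Tᶜ, d i) *
        ((∏ i ∈ T.map σ.toEmbedding, a i) * ∏ i ∈ (T.map σ.toEmbedding)ᶜ, b i) =
      ((T.card.factorial * (Fintype.card ι - T.card).factorial : ℕ) : R) *
        ((lp a b).coeff T.card * ((∏ i ∈ T, c i) * ∏ i ∈ Tᶜ, d i)) := by
    intro T
    rw [← Finset.mul_sum, sum_perm_image T (fun S => (∏ i ∈ S, a i) * ∏ i ∈ Sᶜ, b i),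
      ← lp_coeff]
    ring
  simp only [h2]
  rw [← Finset.sum_fiberwise_of_maps_to (s := (univ : Finset (Finset ι)))
    (t := range (Fintype.card ι + 1)) (g := fun T => T.card)
    (fun T _ => by
      rw [mem_range]
      exact Nat.lt_succ_of_le (Finset.card_le_univ T))]
  apply Finset.sum_congr rfl
  intro k _
  have h3 : (univ.filter (fun T : Finset ι => T.card = k)) = powersetCard k univ := by
    ext S
    simp [mem_powersetCard]
  rw [h3, lp_coeff c d k, Finset.mul_sum, Finset.mul_sum]
  apply Finset.sum_congr rfl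
  intro T hT
  rw [mem_powersetCard] at hT
  rw [hT.2]

/-! ### computing with lists of Gaussian integers -/

/-- Gaussian integers -/
abbrev G : Type := GaussianInt

/-- addition of coefficient lists -/
def addL : List G → List G → List G
  | [], m => m
  | l, [] => l
  | a :: l, b :: m => (a + b) :: addL l m

/-- multiplication of a coefficient list by `a X + b` -/
def mulL (v : G × G) (l : List G) : List G :=
  addL (0 :: l.map (fun x => v.1 * x)) (l.map (fun x => v.2 * x))

/-- the product of linear forms as a coefficient list -/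
def prodL (l : List (G × G)) : List G := l.foldr mulL [1]

/-- the polynomial of a coefficient list -/
noncomputable def pl : List G → G[X]
  | [] => 0
  | a :: l => C a + X * pl l

theorem pl_addL (l m : List G) : pl (addL l m) = pl l + pl m := by
  induction l generalizing m with
  | nil => simp [addL, pl]
  | cons a l ih =>
    cases m with
    | nil => simp [addL, pl]
    | cons b m => simp only [addL, pl, ih, map_add]; ring

theorem pl_smul (c : G) (l : List G) : pl (l.map (fun x => c * x)) = C c * pl l := by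
  induction l with
  | nil => simp [pl]
  | cons a l ih => simp only [List.map_cons, pl, ih, map_mul]; ring

theorem pl_mulL (v : G × G) (l : List G) : pl (mulL v l) = (C v.1 * X + C v.2) * pl l := by
  unfold mulL
  rw [pl_addL, pl, pl_smul, pl_smul, map_zero, zero_add]
  ring

theorem pl_prodL (l : List (G × G)) :
    pl (prodL l) = (l.map (fun v => C v.1 * X + C v.2)).prod := by
  unfold prodL
  induction l with
  | nil => simp [pl]
  | cons v l ih => rw [List.foldr_cons, pl_mulL, ih, List.map_cons, List.prod_cons]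

theorem pl_coeff (l : List G) (k : ℕ) : (pl l).coeff k = l.getD k 0 := by
  induction l generalizing k with
  | nil => simp [pl]
  | cons a l ih =>
    cases k with
    | zero => simp [pl]
    | succ k => rw [pl, coeff_add, coeff_C_succ, zero_add, coeff_X_mul, ih, List.getD_cons_succ]

/-! ### the counterexample -/

/-- The fourteen vectors in `ℂ²`. -/
def vs : List (G × G) :=
  [(1, 0), (1, ⟨2, 0⟩), (1, ⟨0, 2⟩), (1, ⟨-2, 0⟩), (1, ⟨0, -2⟩),
    (5, ⟨3, 0⟩), (5, ⟨0, 3⟩), (5, ⟨-3, 0⟩), (5, ⟨0, -3⟩),
    (1, ⟨1, 1⟩), (1, ⟨-1, 1⟩), (1, ⟨-1, -1⟩), (1, ⟨1, -1⟩), (0, 1)]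

/-- The `j`-th vector. -/
def vec (j : Fin 14) : G × G := vs.getD j.val (0, 0)

/-- The Gram matrix with Gaussian integer entries. -/
def A0 : Matrix (Fin 14) (Fin 14) G :=
  Matrix.of fun i j => (vec i).1 * star (vec j).1 + (vec i).2 * star (vec j).2

/-- The Gram matrix. -/
noncomputable def A : Matrix (Fin 14) (Fin 14) ℂ := A0.map GaussianInt.toComplex

theorem A_psd : A.PosSemidef := by
  have h : A = (Matrix.of fun (i : Fin 14) (k : Fin 2) =>
      if k = 0 then GaussianInt.toComplex (vec i).1 else GaussianInt.toComplex (vec i).2) *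
      (Matrix.of fun (i : Fin 14) (k : Fin 2) =>
      if k = 0 then GaussianInt.toComplex (vec i).1 else
        GaussianInt.toComplex (vec i).2).conjTranspose := by
    ext i j
    rw [Matrix.mul_apply, Fin.sum_univ_two]
    simp only [A, A0, Matrix.map_apply, Matrix.of_apply, Matrix.conjTranspose_apply, if_true,
      map_add, map_mul, GaussianInt.toComplex_star]
    simp
  rw [h]
  exact Matrix.posSemidef_self_mul_conjTranspose _

theorem permanent_map {ι : Type} [Fintype ι] [DecidableEq ι] (N : Matrix ι ι G) :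
    (N.map GaussianInt.toComplex).permanent = GaussianInt.toComplex N.permanent := by
  simp [Matrix.permanent, map_sum, map_prod]

/-- the value given by the rank two formula -/
def value (n : ℕ) (l m : List (G × G)) : G :=
  ((List.range (n + 1)).map (fun k => (((k.factorial * (n - k).factorial : ℕ) : ℤ) : G) *
    ((prodL l).getD k 0 * (prodL m).getD k 0))).sum

/-- complex conjugation of vectors -/
def cj (v : G × G) : G × G := (star v.1, star v.2)

theorem lp_list {ι : Type} [Fintype ι] (l : List (G × G)) (a b : ι → G)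
    (h : ∏ i, (C (a i) * X + C (b i)) = (l.map (fun v => C v.1 * X + C v.2)).prod) (k : ℕ) :
    (lp a b).coeff k = (prodL l).getD k 0 := by
  unfold lp
  rw [h, ← pl_prodL, pl_coeff]

theorem perm_value {ι : Type} [Fintype ι] [DecidableEq ι] (n : ℕ) (hn : Fintype.card ι = n)
    (l m : List (G × G)) (a b c d : ι → G)
    (h : ∏ i, (C (a i) * X + C (b i)) = (l.map (fun v => C v.1 * X + C v.2)).prod)
    (h' : ∏ i, (C (c i) * X + C (d i)) = (m.map (fun v => C v.1 * X + C v.2)).prod) :
    (Matrix.of fun i j => a i * c j + b i * d j).permanent = value n l m := by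
  rw [perm_rank2, hn]
  unfold value
  have hs : ∀ f : ℕ → G, ∑ k ∈ range (n + 1), f k = ((List.range (n + 1)).map f).sum :=
    fun f => rfl
  rw [hs]
  congr 1
  apply List.map_congr_left
  intro k _
  rw [lp_list l a b h, lp_list m c d h', Int.cast_natCast]

theorem perA0 : A0.permanent = ((238607119225036800 : ℤ) : G) := by
  have h := perm_value (ι := Fin 14) 14 (by simp) vs (vs.map cj) (fun i => (vec i).1)
    (fun i => (vec i).2) (fun i => star (vec i).1) (fun i => star (vec i).2) ?_ ?_
  · have e : value 14 vs (vs.map cj) = ((238607119225036800 : ℤ) : G) := by decide +kernel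
    rw [← e, ← h]
    rfl
  · rw [Fin.prod_univ_def]
    rfl
  · rw [Fin.prod_univ_def]
    rfl

/-- the list of vectors with those of index `0` and `k + 1` replaced by `(0, 1)` -/
def vsk (k : Fin 13) : List (G × G) :=
  (List.finRange 14).map (fun j => if j ≠ 0 ∧ j ≠ k.succ then vec j else (0, 1))

/-- conjugated -/
def vskc (k : Fin 13) : List (G × G) :=
  (List.finRange 14).map (fun j => if j ≠ 0 ∧ j ≠ k.succ then cj (vec j) else (0, 1))

/-- the values of the permanents of order twelve -/
def pk (k : Fin 13) : ℤ :=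
  if k.val < 4 then 3787901732476800 else if k.val < 8 then 2070666328780800 else
    if k.val < 12 then 7959636114664320 else 14589299554099200

theorem sub_prod (k : Fin 13) (w : Fin 14 → G × G) :
    ∏ i : {j : Fin 14 // j ≠ 0 ∧ j ≠ k.succ}, (C (w i).1 * X + C (w i).2) =
      (((List.finRange 14).map (fun j => if j ≠ 0 ∧ j ≠ k.succ then w j else (0, 1))).map
        (fun v => C v.1 * X + C v.2)).prod := by
  rw [List.map_map, ← Fin.prod_univ_def]
  rw [← Finset.prod_subtype (univ.filter (fun j : Fin 14 => j ≠ 0 ∧ j ≠ k.succ))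
    (fun x => by simp) (fun i => C (w i).1 * X + C (w i).2), Finset.prod_filter]
  apply Finset.prod_congr rfl
  intro j _
  rw [Function.comp_apply]
  by_cases hj : j ≠ 0 ∧ j ≠ k.succ
  · rw [if_pos hj, if_pos hj]
  · rw [if_neg hj, if_neg hj]
    simp

theorem perB (k : Fin 13) : (A0.submatrix
    (Subtype.val : {j : Fin 14 // j ≠ 0 ∧ j ≠ k.succ} → Fin 14) Subtype.val).permanent =
      ((pk k : ℤ) : G) := by
  have hcard : Fintype.card {j : Fin 14 // j ≠ 0 ∧ j ≠ k.succ} = 12 := by
    revert k
    decide
  have h := perm_value 12 hcard (vsk k) (vskc k) (fun i => (vec i.val).1)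
    (fun i => (vec i.val).2) (fun i => star (vec i.val).1) (fun i => star (vec i.val).2)
    (sub_prod k vec) (sub_prod k (fun j => cj (vec j)))
  have e : ∀ k : Fin 13, value 12 (vsk k) (vskc k) = ((pk k : ℤ) : G) := by decide +kernel
  rw [← e, ← h]
  rfl

theorem norm_row (k : Fin 13) : ‖A 0 k.succ‖ ^ 2 =
    if k.val < 4 then 1 else if k.val < 8 then 25 else if k.val < 12 then 1 else 0 := by
  have h : ∀ k : Fin 13, A0 0 k.succ = (((if k.val < 4 then 1 else if k.val < 8 then 5 else
    if k.val < 12 then 1 else 0 : ℤ)) : G) := by decide +kernel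
  rw [A, Matrix.map_apply, h, map_intCast]
  split_ifs <;> simp <;> norm_num

/-- The inequality of Q1 fails for some complex positive semidefinite matrix (of order 14). -/
theorem result : ¬ ∀ n : ℕ, 1 ≤ n → ∀ A : Matrix (Fin (n + 1)) (Fin (n + 1)) ℂ,
    A.PosSemidef →
      ∑ k : Fin n, ‖A 0 k.succ‖ ^ 2 *
        (A.submatrix
          (Subtype.val : {j : Fin (n + 1) // j ≠ 0 ∧ j ≠ k.succ} → Fin (n + 1))
          Subtype.val).permanent.re ≤ A.permanent.re := by
  intro h
  have h1 := h 13 (by norm_num) A A_psd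
  have e1 : A.permanent = 238607119225036800 := by
    rw [A, permanent_map, perA0, map_intCast]
    norm_num
  have e2 : ∀ k : Fin 13, (A.submatrix
      (Subtype.val : {j : Fin 14 // j ≠ 0 ∧ j ≠ k.succ} → Fin 14)
      Subtype.val).permanent = ((pk k : ℤ) : ℂ) := by
    intro k
    have : A.submatrix (Subtype.val : {j : Fin 14 // j ≠ 0 ∧ j ≠ k.succ} → Fin 14)
        (Subtype.val : {j : Fin 14 // j ≠ 0 ∧ j ≠ k.succ} → Fin 14) =
        (A0.submatrix (Subtype.val : {j : Fin 14 // j ≠ 0 ∧ j ≠ k.succ} → Fin 14)
        (Subtype.val : {j : Fin 14 // j ≠ 0 ∧ j ≠ k.succ} → Fin 14)).map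
          GaussianInt.toComplex := rfl
    rw [this, permanent_map, perB, map_intCast]
  simp only [e1, e2, norm_row] at h1
  simp [Fin.sum_univ_succ, pk] at h1
  norm_num at h1

end Pool.Agent.Results.MP_395ab6_co.Order14
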